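import Pool.Agent.Lib.MP_21eb54_gt.FinC

/-!
# H-thin knots: Rasmussen's invariant and the signature

For every diagram of an oriented knot on the sphere whose rational Khovanov homology is supported on two
adjacent diagonals, `s - σ` is divisible by `4`, and `s = σ` if the Turaev genus of the diagram is at most
one or if the change of one crossing gives a diagram (thin or not) with `s = σ`.
-/

set_option autoImplicit false

namespace Pool.Agent.Results.MP_21eb54_gt.ThinKnots

open Pool.Agent.Lib.MP_21eb54_gt

theorem result {n : ℕ} (D : Dgm n) (h : D.Thin) :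
    4 ∣ D.s - D.sig ∧ ((D.gT ≤ 1 ∨ ∃ c, (D.chg c).s = (D.chg c).sig) → D.s = D.sig) := by
  obtain ⟨h1, _, h3, h4⟩ := D.main h
  refine ⟨h1, ?_⟩
  rintro (h5 | ⟨c, h5⟩)
  · exact h3 h5
  · exact (h4 c).2 h5

end Pool.Agent.Results.MP_21eb54_gt.ThinKnots
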